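import Pool.Agent.Y331.EP.Trans

set_option autoImplicit false

open scoped Manifold ContDiff Topology
open Set Filter

namespace Pool.Agent.Results.MP_5c499f_an.ExpansiveFactors

open Pool.Agent.H721R2 Pool.Agent.H789R2.AN Pool.Agent.TH289 Pool.Agent.TH289.K
open Pool.Agent.Y331.EP Pool.Agent.TH289.L

/-- **Expansive factors of Anosov diffeomorphisms with global product structure.**
Let `f` be a `C¹` Anosov diffeomorphism of a closed connected manifold `M` with global product
structure (`GPS`: each stable path and each unstable path with the same initial point span a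
rectangle; for instance a hyperbolic automorphism of an infranilmanifold).  Let `g` be any expansive
homeomorphism of a closed connected topological manifold `M'` with `dim M' ≤ dim M` (no smooth
structure on `M'`, no product structure and no shadowing for `g` is assumed), and let `h` be a
continuous map of `M` onto `M'` with `h ∘ f = g ∘ h`.  Then the following are equivalent.
* `h_top(f) ≤ h_top(g)` (the opposite inequality always holds).
* There is a constant `C` with `#Fix(fⁿ) ≤ C · #Fix(gⁿ)` for infinitely many `n`.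
* Every fibre of `h` is countable.
* `h` takes different values at two different points that are both forward and backward asymptotic
  under `f`.
* `h` is a covering map.
* `h` is a covering map with finite fibres, and `g` is topologically transitive and has global
  product structure.

If moreover `M'` is a smooth manifold and `g` is a `C¹` Anosov diffeomorphism, each of these implies
that `M'` is covered by Euclidean space. -/
theorem result (E : Type*) [NormedAddCommGroup E] [NormedSpace ℝ E] [FiniteDimensional ℝ E]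
    (M : Type*) [MetricSpace M] [CompactSpace M] [ConnectedSpace M]
    [ChartedSpace E M] [IsManifold 𝓘(ℝ, E) ∞ M] (f : Diffeomorph 𝓘(ℝ, E) 𝓘(ℝ, E) M M 1)
    (Es Eu : ∀ x : M, Submodule ℝ (TangentSpace 𝓘(ℝ, E) x)) (hf : IsAnosov f Es Eu)
    (hG : GPS f.toHomeomorph)
    (E' : Type*) [NormedAddCommGroup E'] [NormedSpace ℝ E'] [FiniteDimensional ℝ E']
    (hdim : Module.finrank ℝ E' ≤ Module.finrank ℝ E)
    (M' : Type*) [MetricSpace M'] [CompactSpace M'] [ConnectedSpace M'] [ChartedSpace E' M'] :
    (∀ (g : M' ≃ₜ M'), Expansive g → ∀ h : C(M, M'), Function.Surjective h →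
      (∀ x, h (f x) = g (h x)) →
      List.TFAE [Dynamics.coverEntropy f univ ≤ Dynamics.coverEntropy g univ,
        ∃ C : ℕ, ∃ᶠ n in atTop, {x | f^[n] x = x}.ncard ≤ C * {y | g^[n] y = y}.ncard,
        ∀ y, (h ⁻¹' {y}).Countable,
        ∀ x y, h x = h y → Asym f x y → Asym f.symm x y → x = y,
        IsCoveringMap h,
        IsCoveringMap h ∧ (∀ y, (h ⁻¹' {y}).Finite) ∧ TopTransitive g ∧ GPS g]) ∧
    (∀ [IsManifold 𝓘(ℝ, E') ∞ M'] (g : Diffeomorph 𝓘(ℝ, E') 𝓘(ℝ, E') M' M' 1)
      (Es' Eu' : ∀ x : M', Submodule ℝ (TangentSpace 𝓘(ℝ, E') x)), IsAnosov g Es' Eu' →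
      ∀ h : C(M, M'), Function.Surjective h → (∀ x, h (f x) = g (h x)) →
      Dynamics.coverEntropy f univ ≤ Dynamics.coverEntropy g univ →
      ∃ π : E' → M', IsCoveringMap π ∧ Function.Surjective π) := by
  have key : ∀ (g : M' ≃ₜ M'), Expansive g → ∀ h : C(M, M'), Function.Surjective h →
      (∀ x, h (f x) = g (h x)) →
      List.TFAE [Dynamics.coverEntropy f univ ≤ Dynamics.coverEntropy g univ,
        ∃ C : ℕ, ∃ᶠ n in atTop, {x | f^[n] x = x}.ncard ≤ C * {y | g^[n] y = y}.ncard,
        ∀ y, (h ⁻¹' {y}).Countable,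
        ∀ x y, h x = h y → Asym f x y → Asym f.symm x y → x = y,
        IsCoveringMap h,
        IsCoveringMap h ∧ (∀ y, (h ⁻¹' {y}).Finite) ∧ TopTransitive g ∧ GPS g] := by
    intro g hg h hs hh
    have h1 := man_factor f Es Eu hf hG g hg hdim h h.continuous hs hh
    have hT : TopTransitive g := trans_factor h.continuous hs hh (man_self f Es Eu hf hG).1
    tfae_have 1 ↔ 6 := by
      have h2 := h1.out 0 5
      constructor
      · intro h3
        obtain ⟨a, b, c⟩ := h2.1 h3
        exact ⟨a, b, hT, c⟩
      · rintro ⟨a, b, -, c⟩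
        exact h2.2 ⟨a, b, c⟩
    tfae_have 1 ↔ 2 := h1.out 0 1
    tfae_have 1 ↔ 3 := h1.out 0 2
    tfae_have 1 ↔ 4 := h1.out 0 3
    tfae_have 1 ↔ 5 := h1.out 0 4
    tfae_finish
  refine ⟨key, ?_⟩
  intro _ g Es' Eu' hg h hs hh hent
  have h6 := ((key g.toHomeomorph (expansive_of_anosov g Es' Eu' hg) h hs hh).out 0 5).1 hent
  exact (man_self g Es' Eu' hg h6.2.2.2).2

end Pool.Agent.Results.MP_5c499f_an.ExpansiveFactors
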