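import Pool.Agent.Q227.AG.Iff

/-!
# Anosov diffeomorphisms whose unstable arcs are not polynomially bounded in homology

Let `f` be an Anosov diffeomorphism of a closed connected manifold `M` and let `γ` be a path in an
unstable leaf. The homological size of the long path `fⁿ ∘ γ` is measured by continuous functions
`u : M → ℝ/ℤ`: a lift `θ` to `ℝ` of the path `u ∘ fⁿ ∘ γ` has a displacement `|θ 1 - θ 0|`. If `f` is
a hyperbolic toral automorphism, then for every `γ` with two different ends some `u` has
displacements that grow exponentially in `n`. It is proved that, conversely, `f` is topologically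
conjugate to a hyperbolic toral automorphism as soon as for every SHORT path `γ` with different ends
in an unstable leaf some `u`, depending on `γ`, has displacements that are not bounded by a
polynomial in `n`. There is no uniformity, no lower bound of the displacement in terms of the
distance in the leaf, and no equivariance of the functions `u`.
-/

set_option autoImplicit false

open scoped Manifold ContDiff Topology
open Set Filter

namespace Pool.Agent.Results.MP_5c499f_an.ExponentialDisplacement

open Pool.Agent.H721R2 Pool.Agent.H789R2.AN Pool.Agent.Q227.AG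
open Pool.Agent.W740.TC (UnstablePath)
open Pool.Agent.H779R2.To (HypMat)

/-- **Anosov diffeomorphisms whose unstable arcs are not polynomially bounded in homology.**
Let `f` be a `C¹` Anosov diffeomorphism of a closed connected smooth manifold `M`. The following are
equivalent.
* (1) `f` is topologically conjugate to a hyperbolic toral automorphism: there are a homeomorphism
  `h` from `M` onto a torus `(ℝ/ℤ)^m` and an integer matrix `A` with determinant `±1` and without
  eigenvalues of modulus one such that `h ∘ f = A ∘ h`.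
* (2) For every path `γ` in an unstable leaf (`UnstablePath f.symm γ`) with `γ 0 ≠ γ 1` there is a
  continuous function `u : M → ℝ/ℤ` whose displacements along the paths `fⁿ ∘ γ` grow exponentially
  (`Grows f u γ`): for some `l > 1` there are arbitrarily large `n` such that a lift `θ` to `ℝ` of
  the path `u ∘ fⁿ ∘ γ` satisfies `|θ 1 - θ 0| ≥ lⁿ`.
* (3) There is a neighbourhood `𝒰` of the diagonal such that for every path `γ` in an unstable leaf
  with `γ 0 ≠ γ 1` for which `f⁻ⁿ(γ 0)`, `f⁻ⁿ(γ t)` are `𝒰`-close for all `n ≥ 0` and all `t` there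
  is a continuous function `u : M → ℝ/ℤ` whose displacements along the paths `fⁿ ∘ γ` are not
  bounded by a polynomial (`Superpoly f u γ`): for every `d` there are arbitrarily large `n` such
  that a lift `θ` to `ℝ` of the path `u ∘ fⁿ ∘ γ` satisfies `|θ 1 - θ 0| ≥ nᵈ`.
* (4) The same as (3) for `f⁻¹` and the short paths in the stable leaves. -/
theorem result (E : Type*) [NormedAddCommGroup E] [NormedSpace ℝ E] [FiniteDimensional ℝ E]
    (M : Type*) [TopologicalSpace M] [T2Space M] [CompactSpace M] [ConnectedSpace M]
    [ChartedSpace E M] [IsManifold 𝓘(ℝ, E) ∞ M] (f : Diffeomorph 𝓘(ℝ, E) 𝓘(ℝ, E) M M 1)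
    (Es Eu : ∀ x : M, Submodule ℝ (TangentSpace 𝓘(ℝ, E) x)) (hA : IsAnosov f Es Eu) :
    List.TFAE [
      ∃ (m : ℕ) (A : Matrix (Fin m) (Fin m) ℤ) (h : M ≃ₜ (Fin m → AddCircle (1 : ℝ))),
        IsUnit A.det ∧ HypMat A ∧ ∀ x i, h (f x) i = ∑ j, A i j • h x j,
      ∀ γ : C(unitInterval, M), UnstablePath f.symm γ → γ 0 ≠ γ 1 →
        ∃ u : C(M, AddCircle (1 : ℝ)), Grows f u γ,
      ∃ 𝒰 ∈ 𝓝ˢ (diagonal M), ∀ γ : C(unitInterval, M), UnstablePath f.symm γ →
        (∀ n t, (f.symm^[n] (γ 0), f.symm^[n] (γ t)) ∈ 𝒰) → γ 0 ≠ γ 1 →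
        ∃ u : C(M, AddCircle (1 : ℝ)), Superpoly f u γ,
      ∃ 𝒰 ∈ 𝓝ˢ (diagonal M), ∀ γ : C(unitInterval, M), UnstablePath f γ →
        (∀ n t, (f^[n] (γ 0), f^[n] (γ t)) ∈ 𝒰) → γ 0 ≠ γ 1 →
        ∃ u : C(M, AddCircle (1 : ℝ)), Superpoly f.symm u γ] :=
  man_iff f Es Eu hA

end Pool.Agent.Results.MP_5c499f_an.ExponentialDisplacement
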