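import Pool.Agent.Q227.AT.Conv

/-!
# Anosov diffeomorphisms with many continuous functions that satisfy a linear recurrence

Let `f` be an Anosov diffeomorphism of a closed connected manifold `M`. A continuous function
`u : M → ℝ/ℤ` satisfies a linear recurrence along `f` if
`u(f^k x) = c_0 u(x) + c_1 u(f x) + ... + c_(k-1) u(f^(k-1) x) + b` for all `x`, with integers `c_j`
and a constant `b`. If `f` is conjugate to a hyperbolic toral automorphism, then the coordinates of
the conjugacy are such functions (theorem of Cayley and Hamilton). Conversely, `f` is conjugate to a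
hyperbolic toral automorphism as soon as any two different points of the same LOCAL unstable set are
separated by such a function, depending on the two points; in particular if there is a continuous
map `φ : M → ℝᵏ/ℤᵏ`, not assumed to be surjective, with `φ ∘ f = A ∘ φ + c` for an integer matrix
`A` (not assumed to be hyperbolic or invertible) which is injective on the local unstable sets, for
instance if `f` is conjugate to the restriction of an affine map of a torus of any dimension to a
compact invariant set.
-/

set_option autoImplicit false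

open scoped Manifold ContDiff Topology
open Set Filter

namespace Pool.Agent.Results.MP_5c499f_an.LinearRecurrences

open Pool.Agent.H721R2 Pool.Agent.H789R2.AN Pool.Agent.Q227.AT
open Pool.Agent.W740.TU (UnstInj)
open Pool.Agent.H779R2.To (HypMat)

/-- **Anosov diffeomorphisms and functions with a linear recurrence.**
Let `f` be a `C¹` Anosov diffeomorphism of a closed connected smooth manifold `M`. The following are
equivalent.
* (1) `f` is topologically conjugate to a hyperbolic toral automorphism: there are a homeomorphism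
  `h` from `M` onto a torus `(ℝ/ℤ)^m` and an integer matrix `A` with determinant `±1` and without
  eigenvalues of modulus one such that `h ∘ f = A ∘ h`.
* (2) There are a number `k`, an integer `k × k` matrix `A` (any matrix), `c ∈ ℝᵏ/ℤᵏ` and a
  continuous map `φ : M → ℝᵏ/ℤᵏ` (not assumed to be surjective) with `φ ∘ f = A ∘ φ + c` that is
  injective on the local unstable sets of some size (`UnstInj f.symm φ`): for some neighbourhood `𝒰`
  of the diagonal one has `φ x ≠ φ y` if `x ≠ y` and `f⁻ⁿ x`, `f⁻ⁿ y` are `𝒰`-close for all `n ≥ 0`.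
* (3) For some neighbourhood `𝒰` of the diagonal, any two points `x ≠ y` such that `f⁻ⁿ x`, `f⁻ⁿ y`
  are `𝒰`-close for all `n ≥ 0` are separated by a continuous function `u : M → ℝ/ℤ` that satisfies
  a linear recurrence along `f` (`Rec f u`): `u(f^k x) = ∑_{j < k} c_j u(f^j x) + b` for all `x`,
  with integers `c_j` and a constant `b` (`u`, `k`, `c_j` and `b` may depend on the two points).
* (4) For some neighbourhood `𝒰` of the diagonal, any two points `x ≠ y` such that `fⁿ x`, `fⁿ y`
  are `𝒰`-close for all `n ≥ 0` are separated by a continuous function `u : M → ℝ/ℤ` that satisfies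
  a linear recurrence along `f⁻¹`. -/
theorem result (E : Type*) [NormedAddCommGroup E] [NormedSpace ℝ E] [FiniteDimensional ℝ E]
    (M : Type*) [TopologicalSpace M] [T2Space M] [CompactSpace M] [ConnectedSpace M]
    [ChartedSpace E M] [IsManifold 𝓘(ℝ, E) ∞ M] (f : Diffeomorph 𝓘(ℝ, E) 𝓘(ℝ, E) M M 1)
    (Es Eu : ∀ x : M, Submodule ℝ (TangentSpace 𝓘(ℝ, E) x)) (hA : IsAnosov f Es Eu) :
    List.TFAE [
      ∃ (m : ℕ) (A : Matrix (Fin m) (Fin m) ℤ) (h : M ≃ₜ (Fin m → AddCircle (1 : ℝ))),
        IsUnit A.det ∧ HypMat A ∧ ∀ x i, h (f x) i = ∑ j, A i j • h x j,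
      ∃ (k : ℕ) (A : Matrix (Fin k) (Fin k) ℤ) (c : Fin k → AddCircle (1 : ℝ))
        (φ : C(M, Fin k → AddCircle (1 : ℝ))),
        (∀ x i, φ (f x) i = ∑ j, A i j • φ x j + c i) ∧ UnstInj f.symm φ,
      ∃ 𝒰 ∈ 𝓝ˢ (diagonal M), ∀ x y : M, x ≠ y →
        (∀ n : ℕ, (f.symm^[n] x, f.symm^[n] y) ∈ 𝒰) → ∃ u, Rec f u ∧ u x ≠ u y,
      ∃ 𝒰 ∈ 𝓝ˢ (diagonal M), ∀ x y : M, x ≠ y →
        (∀ n : ℕ, (f^[n] x, f^[n] y) ∈ 𝒰) → ∃ u, Rec f.symm u ∧ u x ≠ u y] :=
  man_iff f Es Eu hA

end Pool.Agent.Results.MP_5c499f_an.LinearRecurrences
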